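import Pool.Agent.MP_47c36b_co.Defs
import Pool.Agent.MP_47c36b_co.FM

section

namespace Pool.Agent.MP_47c36b_co

open Finset

/-- Size of a fibre. -/
def cnt {h k : ℕ} (τ : Fin h → Fin k) (i : Fin k) : ℕ := (univ.filter (fun a => τ a = i)).card

/-- The types of copies of `H` in an ordered complete multipartite graph. -/
def Valid {h k : ℕ} (H : SimpleGraph (Fin h)) (τ : Fin h → Fin k) : Prop :=
  Monotone τ ∧ ∀ a b, H.Adj a b → τ a ≠ τ b

/-- The integer system describing tilings. -/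
def IntSys {h k : ℕ} (H : SimpleGraph (Fin h)) (x : ℝ) (n : ℕ) (s : Fin k → ℕ) : Prop :=
  ∃ y : (Fin h → Fin k) → ℕ, (∀ τ, ¬ Valid H τ → y τ = 0) ∧
    (∀ i, ∑ τ, y τ * cnt τ i ≤ s i) ∧ x * n ≤ h * ∑ τ, (y τ : ℝ)

lemma exists_fibre_inj {A B K : Type} [Fintype A] [Fintype B] [DecidableEq K] (f : A → K)
    (g : B → K)
    (h : ∀ i, (univ.filter (fun a => f a = i)).card ≤ (univ.filter (fun b => g b = i)).card) :
    ∃ Ψ : A → B, Function.Injective Ψ ∧ ∀ a, g (Ψ a) = f a := by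
  have h1 : ∀ i, Nonempty ({a // f a = i} ↪ {b // g b = i}) := fun i =>
    Function.Embedding.nonempty_of_card_le (by simpa [Fintype.card_subtype] using h i)
  let E := fun i => (h1 i).some
  let Ψ : A → B := fun a => (E (f a) ⟨a, rfl⟩).1
  have h2 : ∀ a, g (Ψ a) = f a := fun a => (E (f a) ⟨a, rfl⟩).2
  have key : ∀ i (a : {a // f a = i}), Ψ a.1 = (E i a).1 := by
    rintro i ⟨a, rfl⟩
    rfl
  refine ⟨Ψ, fun a a' haa => ?_, h2⟩
  have h3 : f a' = f a := by rw [← h2 a', ← h2 a, haa]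
  have h4 := key (f a) ⟨a, rfl⟩
  have h5 := key (f a) ⟨a', h3⟩
  simp only at h4 h5
  have h6 : E (f a) ⟨a, rfl⟩ = E (f a) ⟨a', h3⟩ := Subtype.ext (by rw [← h4, ← h5, haa])
  exact congrArg Subtype.val ((E (f a)).injective h6)

lemma sum_card_filter_mul {A B : Type} [Fintype B] [DecidableEq B] (T : Finset A) (g : A → B)
    (f : B → ℕ) : ∑ τ, (T.filter (fun φ => g φ = τ)).card * f τ = ∑ φ ∈ T, f (g φ) := by
  rw [← Finset.sum_fiberwise T g (fun φ => f (g φ))]
  refine Finset.sum_congr rfl (fun τ _ => ?_)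
  rw [Finset.sum_congr rfl (g := fun _ => f τ)]
  · simp
  · intro φ hφ
    rw [(Finset.mem_filter.1 hφ).2]

lemma tiling_iff {h n k : ℕ} (x : ℝ) (H : SimpleGraph (Fin h)) (G : SimpleGraph (Fin n))
    (p : Fin n → Fin k) (hp : Monotone p) (hG : ∀ u v, G.Adj u v ↔ p u ≠ p v) :
    HasTiling x H G ↔ IntSys H x n (cnt p) := by
  classical
  constructor
  · rintro ⟨T, hT, hdis, hcov⟩
    refine ⟨fun τ => (T.filter (fun φ => p ∘ φ = τ)).card, fun τ hτ => ?_, fun i => ?_, ?_⟩
    · rw [Finset.card_eq_zero, Finset.filter_eq_empty_iff]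
      rintro φ hφ rfl
      exact hτ ⟨hp.comp (hT φ hφ).1.monotone, fun a b hab => (hG _ _).1 ((hT φ hφ).2 a b hab)⟩
    · rw [sum_card_filter_mul T (fun φ => p ∘ φ) (fun τ => cnt τ i)]
      unfold cnt
      rw [← Finset.card_sigma]
      refine Finset.card_le_card_of_injOn (fun q => q.1 q.2) ?_ ?_
      · rintro ⟨φ, a⟩ hq
        simp only [Finset.coe_sigma, Set.mem_sigma_iff, Finset.mem_coe, Finset.mem_filter,
          Finset.mem_univ, true_and, Function.comp_apply] at hq ⊢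
        exact hq.2
      · rintro ⟨φ, a⟩ hq ⟨ψ, b⟩ hq' hab
        simp only [Finset.coe_sigma, Set.mem_sigma_iff, Finset.mem_coe] at hq hq' hab
        have hφψ : φ = ψ := by
          by_contra hne
          exact Set.disjoint_left.1 (hdis φ hq.1 ψ hq'.1 hne) ⟨a, rfl⟩ ⟨b, hab.symm⟩
        subst hφψ
        rw [(hT φ hq.1).1.injective hab]
    · refine hcov.trans ?_
      have h1 : (⋃ φ ∈ T, Set.range φ) = ↑(T.biUnion (fun φ => univ.image φ)) := by
        ext u
        simp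
      have h2 := sum_card_filter_mul T (fun φ => p ∘ φ) (fun _ => 1)
      simp only [mul_one, Finset.sum_const, smul_eq_mul] at h2
      rw [h1, Set.ncard_coe_finset, ← Nat.cast_sum, h2, ← Nat.cast_mul, Nat.cast_le]
      refine Finset.card_biUnion_le.trans ?_
      rw [mul_comm, ← smul_eq_mul, ← Finset.sum_const]
      exact Finset.sum_le_sum (fun φ _ => Finset.card_image_le.trans (by simp))
  · rintro ⟨y, hy0, hy1, hy2⟩
    obtain ⟨Ψ, hΨ, hΨp⟩ := exists_fibre_inj
      (fun q : (Σ τ : Fin h → Fin k, Fin (y τ)) × Fin h => q.1.1 q.2) p (fun i => by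
        refine le_trans (le_of_eq ?_) (hy1 i)
        rw [Finset.card_filter, Fintype.sum_prod_type, Fintype.sum_sigma]
        refine Finset.sum_congr rfl (fun τ _ => ?_)
        simp [cnt])
    let φ : (Σ τ : Fin h → Fin k, Fin (y τ)) → Fin h → Fin n :=
      fun j => (fun a => Ψ (j, a)) ∘ Tuple.sort (fun a => Ψ (j, a))
    have hval : ∀ j : (Σ τ : Fin h → Fin k, Fin (y τ)), Valid H j.1 := by
      rintro ⟨τ, b⟩
      by_contra hne
      have h1 := b.2
      have h2 := hy0 τ hne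
      omega
    have hmono : ∀ j, StrictMono (φ j) := fun j =>
      (Tuple.monotone_sort _).strictMono_of_injective
        ((hΨ.comp (Prod.mk_right_injective j)).comp (Equiv.injective _))
    have hrange : ∀ j, Set.range (φ j) = Set.range (fun a => Ψ (j, a)) := fun j =>
      (Equiv.surjective _).range_comp _
    have hpφ : ∀ j a, p (φ j a) = j.1 a := by
      intro j a
      have h1 : Monotone (j.1 ∘ Tuple.sort (fun a => Ψ (j, a))) := by
        have : j.1 ∘ Tuple.sort (fun a => Ψ (j, a)) = p ∘ φ j := by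
          funext b
          simp [φ, hΨp]
        rw [this]
        exact hp.comp (hmono j).monotone
      have h2 : Monotone (j.1 ∘ (1 : Equiv.Perm (Fin h))) := (hval j).1
      have h3 := congrFun (Tuple.unique_monotone h1 h2) a
      simp only [φ, Function.comp_apply, hΨp] at h3 ⊢
      exact h3
    refine ⟨univ.image φ, ?_, ?_, ?_⟩
    · intro ψ hψ
      obtain ⟨j, _, rfl⟩ := Finset.mem_image.1 hψ
      refine ⟨hmono j, fun a b hab => ?_⟩
      rw [hG, hpφ, hpφ]
      exact (hval j).2 a b hab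
    · intro ψ hψ ψ' hψ' hne
      obtain ⟨j, _, rfl⟩ := Finset.mem_image.1 hψ
      obtain ⟨j', _, rfl⟩ := Finset.mem_image.1 hψ'
      rw [hrange, hrange, Set.disjoint_left]
      rintro _ ⟨a, rfl⟩ ⟨b, hb⟩
      have := (Prod.ext_iff.1 (hΨ hb)).1
      exact hne (congrArg φ this.symm)
    · refine hy2.trans (le_of_eq ?_)
      have h1 : (⋃ ψ ∈ univ.image φ, Set.range ψ) = Set.range Ψ := by
        ext u
        simp only [Finset.mem_image, Finset.mem_univ, true_and, Set.mem_iUnion, exists_prop,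
          exists_exists_eq_and, hrange]
        simp only [Set.mem_range, Prod.exists]
      rw [h1, Set.ncard_range_of_injective hΨ]
      simp [mul_comm]

/-- Part sizes with the small part in position `j`. -/
def szN {k : ℕ} (a m : ℕ) (j : Fin k) : Fin k → ℕ := fun i => if i = j then a else m

lemma ncard_eq_cnt {n k : ℕ} (p : Fin n → Fin k) (i : Fin k) : (p ⁻¹' {i}).ncard = cnt p i := by
  unfold cnt
  rw [← Set.ncard_coe_finset]
  congr 1
  ext u
  simp

lemma cnt_comp {n k : ℕ} (p : Fin n → Fin k) (σ : Equiv.Perm (Fin k)) (φ : Fin n ≃ Fin n)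
    (i : Fin k) : cnt (fun t => σ (p (φ.symm t))) i = cnt p (σ.symm i) := by
  unfold cnt
  refine Finset.card_bijective φ.symm φ.symm.bijective (fun t => ?_)
  simp [Equiv.eq_symm_apply]

lemma sum_cnt {n k : ℕ} (p : Fin n → Fin k) : ∑ i, cnt p i = n := by
  unfold cnt
  rw [← Finset.card_eq_sum_card_fiberwise (s := univ) (t := univ) (fun _ _ => Finset.mem_univ _)]
  simp

lemma labelling_iff {h n k : ℕ} (x : ℝ) (H : SimpleGraph (Fin h)) (B : SimpleGraph (Fin n))
    (part : Fin n → Fin (k + 2)) (hB : ∀ u v, B.Adj u v ↔ part u ≠ part v) {a m : ℕ}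
    (hs : cnt part = szN a m 0) :
    (∀ (σ : Equiv.Perm (Fin (k + 2))) (φ : Fin n ≃ Fin n),
      (∀ u v, σ (part u) < σ (part v) → φ u < φ v) → HasTiling x H (B.map φ)) ↔
    ∀ j : Fin (k + 2), IntSys H x n (szN a m j) := by
  have key : ∀ (σ : Equiv.Perm (Fin (k + 2))) (φ : Fin n ≃ Fin n),
      (∀ u v, σ (part u) < σ (part v) → φ u < φ v) →
      (HasTiling x H (B.map φ) ↔ IntSys H x n (szN a m (σ 0))) := by
    intro σ φ hφ
    rw [tiling_iff x H _ (fun t => σ (part (φ.symm t)))]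
    · have : cnt (fun t => σ (part (φ.symm t))) = szN a m (σ 0) := by
        funext i
        rw [cnt_comp, hs]
        simp [szN, Equiv.symm_apply_eq]
      rw [this]
    · intro s t hst
      by_contra hlt
      have := hφ _ _ (not_le.1 hlt)
      simp only [Equiv.apply_symm_apply] at this
      exact absurd hst (not_le.2 this)
    · intro u v
      obtain ⟨u, rfl⟩ := φ.surjective u
      obtain ⟨v, rfl⟩ := φ.surjective v
      have := SimpleGraph.map_adj_apply (G := B) (f := φ.toEmbedding) (a := u) (b := v)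
      simp only [Equiv.coe_toEmbedding] at this
      rw [this, hB]
      simp
  constructor
  · intro hall j
    let σ : Equiv.Perm (Fin (k + 2)) := Equiv.swap 0 j
    let φ : Fin n ≃ Fin n := (Tuple.sort (σ ∘ part)).symm
    have hφ : ∀ u v, σ (part u) < σ (part v) → φ u < φ v := by
      intro u v huv
      by_contra hle
      have := Tuple.monotone_sort (σ ∘ part) (not_lt.1 hle)
      simp only [φ, Function.comp_apply, Equiv.apply_symm_apply] at this
      exact absurd huv (not_lt.2 this)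
    have := (key σ φ hφ).1 (hall σ φ hφ)
    simpa [σ] using this
  · intro hall σ φ hφ
    exact (key σ φ hφ).2 (hall _)

lemma sum_szN {k : ℕ} (a m : ℕ) (j : Fin (k + 2)) : ∑ i, szN a m j i = a + (k + 1) * m := by
  unfold szN
  rw [← Finset.add_sum_erase _ _ (Finset.mem_univ j), if_pos rfl,
    Finset.sum_congr rfl (g := fun _ => m) (fun i hi => if_neg (Finset.ne_of_mem_erase hi))]
  simp

lemma chiCr_eq {n k : ℕ} (B : SimpleGraph (Fin n)) (part : Fin n → Fin (k + 2))
    (hsurj : Function.Surjective part) (hB : ∀ u v, B.Adj u v ↔ part u ≠ part v) {a m : ℕ}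
    (hs : cnt part = szN a m 0) (ham : a ≤ m) (hm : 0 < m) : chiCr B = n / m := by
  let C₀ : B.Coloring (Fin (k + 2)) := SimpleGraph.Coloring.mk part (fun h => (hB _ _).1 h)
  obtain ⟨rep, hrep⟩ := hsurj.hasRightInverse
  have hχ : B.chromaticNumber = (k + 2 : ℕ) := by
    refine le_antisymm (SimpleGraph.Colorable.chromaticNumber_le ⟨C₀⟩) ?_
    refine SimpleGraph.le_chromaticNumber_of_pairwise_adj (ι := Fin (k + 2)) (by simp) rep ?_
    intro i j hij
    rw [hB, hrep, hrep]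
    exact hij
  have hσ : sigma B = a := by
    unfold sigma
    have hχ' : B.chromaticNumber.toNat = k + 2 := by rw [hχ]; rfl
    rw [hχ']
    refine IsLeast.csInf_eq ⟨⟨C₀, 0, ?_⟩, ?_⟩
    · have : C₀.colorClass 0 = part ⁻¹' {0} := rfl
      rw [this, ncard_eq_cnt, hs]
      simp [szN]
    · rintro s ⟨C, c, rfl⟩
      have hinj : Function.Injective (fun i => C (rep i)) := by
        intro i j hij
        by_contra hne
        exact C.valid ((hB _ _).2 (by rw [hrep, hrep]; exact hne)) hij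
      have hbij := Finite.injective_iff_surjective.1 hinj
      obtain ⟨i, rfl⟩ := hbij c
      have h1 : part ⁻¹' {i} ⊆ C.colorClass (C (rep i)) := by
        intro u hu
        obtain ⟨j, hj⟩ := hbij (C u)
        have h2 : part (rep j) = part u := by
          by_contra hne
          exact C.valid ((hB _ _).2 hne) hj
        rw [hrep] at h2
        have h3 : part u = i := hu
        change C u = C (rep i)
        rw [← hj, h2, h3]
      refine le_trans ?_ (Set.ncard_le_ncard h1 (Set.toFinite _))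
      rw [ncard_eq_cnt, hs]
      unfold szN
      split_ifs
      · exact le_rfl
      · exact ham
  have hn : n = a + (k + 1) * m := by rw [← sum_cnt part, hs, sum_szN]
  unfold chiCr
  rw [hσ, hχ]
  have hm' : (0 : ℝ) < m := by exact_mod_cast hm
  have h1 : (n : ℝ) - a = (k + 1) * m := by
    rw [hn]
    push_cast
    ring
  rw [h1]
  simp only [ENat.toNat_natCast]
  push_cast
  field_simp
  ring

/-- The values of the critical chromatic number on bottlegraphs. -/
lemma bottle_values {h : ℕ} (x : ℝ) (H : SimpleGraph (Fin h)) (c : ℝ) :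
    (∃ (n : ℕ) (B : SimpleGraph (Fin n)), IsBottle x H B ∧ chiCr B = c) ↔
    ∃ k a m : ℕ, 0 < a ∧ a ≤ m ∧
      (∀ j : Fin (k + 2), IntSys H x (a + (k + 1) * m) (szN a m j)) ∧
      ((a + (k + 1) * m : ℕ) : ℝ) / m = c := by
  constructor
  · rintro ⟨n, B, ⟨k, m, part, hsurj, hB, h0, h1, hall⟩, rfl⟩
    have hs : cnt part = szN (cnt part 0) m 0 := by
      funext i
      unfold szN
      split_ifs with hi
      · rw [hi]
      · rw [← ncard_eq_cnt, h1 i hi]
    rw [ncard_eq_cnt] at h0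
    have ha : 0 < cnt part 0 := by
      obtain ⟨u, hu⟩ := hsurj 0
      exact Finset.card_pos.2 ⟨u, by simpa using hu⟩
    have hn : n = cnt part 0 + (k + 1) * m := by rw [← sum_szN _ _ 0, ← hs, sum_cnt]
    refine ⟨k, cnt part 0, m, ha, h0, ?_, ?_⟩
    · rw [← hn]
      exact (labelling_iff x H B part hB hs).1 hall
    · rw [← hn, chiCr_eq B part hsurj hB hs h0 (ha.trans_le h0)]
  · rintro ⟨k, a, m, ha, ham, hall, rfl⟩
    have hcard : Fintype.card (Σ i : Fin (k + 2), Fin (szN a m 0 i)) = a + (k + 1) * m := by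
      simp [sum_szN]
    let e := Fintype.equivFinOfCardEq hcard
    let part : Fin (a + (k + 1) * m) → Fin (k + 2) := fun u => (e.symm u).1
    have hs : cnt part = szN a m 0 := by
      funext i
      unfold cnt
      rw [Finset.card_filter, ← Equiv.sum_comp e, Fintype.sum_sigma]
      simp [part]
    have hsurj : Function.Surjective part := by
      intro i
      have : 0 < cnt part i := by
        rw [hs]
        unfold szN
        split_ifs <;> omega
      obtain ⟨u, hu⟩ := Finset.card_pos.1 this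
      exact ⟨u, by simpa using hu⟩
    let B : SimpleGraph (Fin (a + (k + 1) * m)) := SimpleGraph.comap part ⊤
    have hB : ∀ u v, B.Adj u v ↔ part u ≠ part v := fun u v => by simp [B]
    refine ⟨_, B, ⟨k, m, part, hsurj, hB, ?_, fun i hi => ?_,
      (labelling_iff x H B part hB hs).2 hall⟩, chiCr_eq B part hsurj hB hs ham (by omega)⟩
    · rw [ncard_eq_cnt, hs]
      simpa [szN] using ham
    · rw [ncard_eq_cnt, hs]
      simp [szN, hi]

end Pool.Agent.MP_47c36b_co

end

section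

namespace Pool.Agent.MP_47c36b_co

open Finset

/-- The fractional relaxation for one position of the small part. -/
def FracSys {h k : ℕ} (H : SimpleGraph (Fin h)) {F : Type} [Field F] [LinearOrder F]
    (x α : F) (j : Fin (k + 2)) : Prop :=
  ∃ y : (Fin h → Fin (k + 2)) → F, (∀ τ, 0 ≤ y τ) ∧ (∀ τ, ¬ Valid H τ → y τ = 0) ∧
    (∀ i, ∑ τ, y τ * cnt τ i ≤ if i = j then 1 - (k + 1) * α else α) ∧ x ≤ h * ∑ τ, y τ

/-- The fractional relaxation. -/
def Rel {h : ℕ} (H : SimpleGraph (Fin h)) (k : ℕ) {F : Type} [Field F] [LinearOrder F]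
    (x α : F) : Prop :=
  1 ≤ (k + 2) * α ∧ (k + 1) * α ≤ 1 ∧ ∀ j : Fin (k + 2), FracSys H x α j

lemma fracSys_poly {h k : ℕ} (H : SimpleGraph (Fin h)) (j : Fin (k + 2)) :
    ∃ D : Set (ℚ × ℚ × ℚ), D.Finite ∧
      ∀ (F : Type) [Field F] [LinearOrder F] [IsStrictOrderedRing F] (x α : F),
        FracSys H x α j ↔ ∀ e ∈ D, 0 ≤ evl x α e := by
  classical
  let C1 : (Fin h → Fin (k + 2)) → ((Fin h → Fin (k + 2)) → ℚ) × (ℚ × ℚ × ℚ) :=
    fun τ => (fun τ' => if τ' = τ then -1 else 0, 0)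
  let C2 : (Fin h → Fin (k + 2)) → ((Fin h → Fin (k + 2)) → ℚ) × (ℚ × ℚ × ℚ) :=
    fun τ => (fun τ' => if τ' = τ then 1 else 0, 0)
  let C3 : Fin (k + 2) → ((Fin h → Fin (k + 2)) → ℚ) × (ℚ × ℚ × ℚ) :=
    fun i => (fun τ => cnt τ i, if i = j then (0, -(k + 1), 1) else (0, 1, 0))
  let C4 : ((Fin h → Fin (k + 2)) → ℚ) × (ℚ × ℚ × ℚ) := (fun _ => -h, (-1, 0, 0))
  obtain ⟨D, hD, hDF⟩ := fm (Set.range C1 ∪ C2 '' {τ | ¬ Valid H τ} ∪ Set.range C3 ∪ {C4})
    ((((Set.finite_range _).union (Set.toFinite _)).union (Set.finite_range _)).union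
      (Set.finite_singleton _))
  refine ⟨D, hD, fun F _ _ _ x α => ?_⟩
  rw [← hDF F (evl x α)]
  refine exists_congr (fun y => ?_)
  have e1 : ∀ τ, (∑ i, ((C1 τ).1 i : F) * y i ≤ evl x α (C1 τ).2) ↔ 0 ≤ y τ := by
    intro τ
    simp [C1, apply_ite (Rat.cast : ℚ → F), ite_mul]
  have e2 : ∀ τ, (∑ i, ((C2 τ).1 i : F) * y i ≤ evl x α (C2 τ).2) ↔ y τ ≤ 0 := by
    intro τ
    simp [C2, apply_ite (Rat.cast : ℚ → F), ite_mul]
  have e3 : ∀ i, (∑ τ, ((C3 i).1 τ : F) * y τ ≤ evl x α (C3 i).2) ↔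
      ∑ τ, y τ * cnt τ i ≤ if i = j then 1 - (k + 1) * α else α := by
    intro i
    have h1 : ∑ τ, ((C3 i).1 τ : F) * y τ = ∑ τ, y τ * cnt τ i :=
      Finset.sum_congr rfl (fun τ _ => by simp [C3, mul_comm])
    have h2 : evl x α (C3 i).2 = if i = j then 1 - (k + 1) * α else α := by
      simp only [C3]
      split_ifs
      · rw [evl_apply]
        push_cast
        ring
      · simp [evl_apply]
    rw [h1, h2]
  have e4 : (∑ τ, (C4.1 τ : F) * y τ ≤ evl x α C4.2) ↔ x ≤ h * ∑ τ, y τ := by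
    simp [C4, evl_apply, Finset.mul_sum]
  simp only [Set.mem_union, or_imp, forall_and, Set.forall_mem_range, Set.forall_mem_image,
    Set.mem_singleton_iff, forall_eq, e1, e2, e3, e4, Set.mem_ofPred_eq]
  constructor
  · rintro ⟨h1, h2, h3, h4⟩
    exact ⟨⟨⟨h1, fun τ hτ => (h2 τ hτ).le⟩, h3⟩, h4⟩
  · rintro ⟨⟨⟨h1, h2⟩, h3⟩, h4⟩
    exact ⟨h1, fun τ hτ => le_antisymm (h2 hτ) (h1 τ), h3, h4⟩

lemma rel_poly {h : ℕ} (H : SimpleGraph (Fin h)) (k : ℕ) :
    ∃ D : Set (ℚ × ℚ × ℚ), D.Finite ∧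
      ∀ (F : Type) [Field F] [LinearOrder F] [IsStrictOrderedRing F] (x α : F),
        Rel H k x α ↔ ∀ e ∈ D, 0 ≤ evl x α e := by
  choose D hD hDF using fun j : Fin (k + 2) => fracSys_poly H j
  refine ⟨insert (0, (k : ℚ) + 2, -1) (insert (0, -((k : ℚ) + 1), 1) (⋃ j, D j)),
    ((Set.finite_iUnion hD).insert _).insert _, fun F _ _ _ x α => ?_⟩
  rw [Set.forall_mem_insert, Set.forall_mem_insert, Rel]
  refine and_congr ?_ (and_congr ?_ ?_)
  · rw [evl_apply]
    push_cast
    constructor <;> intro _ <;> linarith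
  · rw [evl_apply]
    push_cast
    constructor <;> intro _ <;> linarith
  · simp only [hDF, Set.mem_iUnion, forall_exists_index]
    exact ⟨fun h e j he => h j e he, fun h j e he => h e j he⟩

lemma rel_down {h : ℕ} {H : SimpleGraph (Fin h)} {k : ℕ} {x α β : ℝ} (hR : Rel H k x α)
    (h1 : 1 ≤ (k + 2) * β) (h2 : β ≤ α) : Rel H k x β := by
  obtain ⟨hα1, hα2, hall⟩ := hR
  have hk : (0 : ℝ) < k + 2 := by positivity
  have hk1 : (0 : ℝ) < k + 1 := by positivity
  refine ⟨h1, by nlinarith, fun j => ?_⟩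
  rcases h2.eq_or_lt with rfl | hlt
  · exact hall j
  choose y hy0 hy1 hy2 hy3 using hall
  have hδ : 0 < (k + 2) * α - 1 := by nlinarith
  set θ := ((k + 2) * β - 1) / ((k + 2) * α - 1) with hθ
  have hθ0 : 0 ≤ θ := div_nonneg (by linarith) hδ.le
  have hθ1 : θ ≤ 1 := by
    rw [hθ, div_le_one hδ]
    nlinarith
  have hθδ : θ * ((k + 2) * α - 1) = (k + 2) * β - 1 := div_mul_cancel₀ _ hδ.ne'
  set c := (1 - θ) / (k + 2) with hc
  have hc0 : 0 ≤ c := div_nonneg (by linarith) hk.le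
  have hck : c * (k + 2) = 1 - θ := div_mul_cancel₀ _ hk.ne'
  refine ⟨fun τ => θ * y j τ + c * ∑ j', y j' τ, fun τ => ?_, fun τ hτ => ?_, fun i => ?_, ?_⟩
  · exact add_nonneg (mul_nonneg hθ0 (hy0 j τ))
      (mul_nonneg hc0 (Finset.sum_nonneg (fun j' _ => hy0 j' τ)))
  · simp [fun j' => hy1 j' τ hτ]
  · have e1 : ∑ τ, (θ * y j τ + c * ∑ j', y j' τ) * cnt τ i
        = θ * ∑ τ, y j τ * cnt τ i + c * ∑ j', ∑ τ, y j' τ * cnt τ i := by
      rw [Finset.sum_comm (f := fun j' τ => y j' τ * cnt τ i), Finset.mul_sum, Finset.mul_sum,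
        ← Finset.sum_add_distrib]
      refine Finset.sum_congr rfl (fun τ _ => ?_)
      rw [← Finset.sum_mul]
      ring
    have e2 : ∑ j', ∑ τ, y j' τ * cnt τ i ≤ 1 := by
      refine (Finset.sum_le_sum (fun j' _ => hy2 j' i)).trans (le_of_eq ?_)
      rw [← Finset.add_sum_erase _ _ (Finset.mem_univ i), if_pos rfl,
        Finset.sum_congr rfl (g := fun _ => α)
          (fun j' hj' => if_neg (Finset.ne_of_mem_erase hj').symm)]
      simp
    rw [e1]
    have e3 := mul_le_mul_of_nonneg_left (hy2 j i) hθ0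
    have e4 := mul_le_mul_of_nonneg_left e2 hc0
    have e5 : c = β - θ * α := by
      have : c * (k + 2) = (β - θ * α) * (k + 2) := by linarith
      exact mul_right_cancel₀ hk.ne' this
    split_ifs at e3 ⊢
    · nlinarith
    · nlinarith
  · have e1 : (h : ℝ) * ∑ τ, (θ * y j τ + c * ∑ j', y j' τ)
        = θ * (h * ∑ τ, y j τ) + c * ∑ j', (h * ∑ τ, y j' τ) := by
      rw [Finset.sum_add_distrib, ← Finset.mul_sum, ← Finset.mul_sum, ← Finset.mul_sum,
        Finset.sum_comm]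
      ring
    have e2 : (k + 2) * x ≤ ∑ j', ((h : ℝ) * ∑ τ, y j' τ) := by
      refine le_trans (le_of_eq ?_) (Finset.sum_le_sum (fun j' _ => hy3 j'))
      simp
    rw [e1]
    have e3 := mul_le_mul_of_nonneg_left (hy3 j) hθ0
    have e4 := mul_le_mul_of_nonneg_left e2 hc0
    have e5 : c * ((k + 2) * x) = (1 - θ) * x := by rw [← mul_assoc, hck]
    linarith

lemma rel_of_int {h : ℕ} {H : SimpleGraph (Fin h)} {k a m : ℕ} {x : ℝ} (ha : 0 < a)
    (ham : a ≤ m) (hall : ∀ j : Fin (k + 2), IntSys H x (a + (k + 1) * m) (szN a m j)) :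
    Rel H k x ((m : ℝ) / ((a + (k + 1) * m : ℕ) : ℝ)) := by
  have ha' : (0 : ℝ) < a := by exact_mod_cast ha
  have ham' : (a : ℝ) ≤ m := by exact_mod_cast ham
  set N : ℝ := ((a + (k + 1) * m : ℕ) : ℝ) with hN
  have hN' : N = a + (k + 1) * m := by
    rw [hN]
    push_cast
    ring
  have hN0 : 0 < N := by
    rw [hN']
    positivity
  refine ⟨?_, ?_, fun j => ?_⟩
  · rw [← mul_div_assoc, le_div_iff₀ hN0]
    linarith
  · rw [← mul_div_assoc, div_le_one hN0]
    linarith
  · obtain ⟨y, hy0, hy1, hy2⟩ := hall j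
    refine ⟨fun τ => y τ / N, fun τ => by positivity, fun τ hτ => by simp [hy0 τ hτ],
      fun i => ?_, ?_⟩
    · have e1 : ∑ τ, (y τ : ℝ) / N * cnt τ i = (∑ τ, y τ * cnt τ i : ℕ) / N := by
        push_cast
        rw [Finset.sum_div]
        exact Finset.sum_congr rfl (fun τ _ => by ring)
      have e2 : ((∑ τ, y τ * cnt τ i : ℕ) : ℝ) ≤ szN a m j i := by exact_mod_cast hy1 i
      rw [e1]
      refine (div_le_div_of_nonneg_right e2 hN0.le).trans (le_of_eq ?_)
      unfold szN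
      split_ifs
      · field_simp
        linarith
      · rfl
    · rw [← Finset.sum_div, ← mul_div_assoc, le_div_iff₀ hN0]
      exact hy2

lemma exists_common_den {ι : Type} [Fintype ι] (q : ι → ℚ) (hq : ∀ i, 0 ≤ q i) :
    ∃ M : ℕ, 0 < M ∧ ∃ z : ι → ℕ, ∀ i, (z i : ℚ) = M * q i := by
  classical
  refine ⟨∏ i, (q i).den, Finset.prod_pos (fun i _ => (q i).pos), ?_⟩
  have : ∀ i, ∃ z : ℕ, (z : ℚ) = ((∏ i, (q i).den : ℕ) : ℚ) * q i := by
    intro i
    refine ⟨(∏ i' ∈ univ.erase i, (q i').den) * (q i).num.toNat, ?_⟩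
    rw [← Finset.prod_erase_mul _ _ (Finset.mem_univ i)]
    have h1 : (((q i).num.toNat : ℕ) : ℚ) = ((q i).num : ℚ) := by
      rw [← Int.cast_natCast, Int.toNat_of_nonneg (Rat.num_nonneg.2 (hq i))]
    rw [Nat.cast_mul, Nat.cast_mul, h1, mul_assoc, Rat.den_mul_eq_num]
  choose z hz using this
  exact ⟨z, hz⟩

lemma int_of_rel {h : ℕ} {H : SimpleGraph (Fin h)} {k : ℕ} {x : ℝ} {α : ℚ}
    (hR : Rel H k x (α : ℝ)) (hlt : (k + 1) * α < 1) :
    ∃ a m : ℕ, 0 < a ∧ a ≤ m ∧
      (∀ j : Fin (k + 2), IntSys H x (a + (k + 1) * m) (szN a m j)) ∧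
      ((a + (k + 1) * m : ℕ) : ℝ) / m = 1 / α := by
  obtain ⟨D, hD, hDF⟩ := rel_poly H k
  obtain ⟨x', hx', hD'⟩ := exists_rat_right hD x α ((hDF ℝ x α).1 hR)
  obtain ⟨h1, _, hall⟩ := (hDF ℚ x' α).2 hD'
  choose y hy0 hy1 hy2 hy3 using hall
  have hk : (0 : ℚ) < k + 2 := by positivity
  have hα : 0 < α := by
    by_contra hle
    nlinarith [mul_nonneg hk.le (neg_nonneg.2 (not_lt.1 hle))]
  obtain ⟨M, hM, z, hz⟩ := exists_common_den
    (fun o : Bool ⊕ (Fin (k + 2) × (Fin h → Fin (k + 2))) =>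
      Sum.elim (fun b => if b then α else 1 - (k + 1) * α) (fun q => y q.1 q.2) o) (by
      rintro (b | q)
      · cases b
        · simp only [Sum.elim_inl, Bool.false_eq_true, if_false]
          linarith
        · simpa using hα.le
      · exact hy0 _ _)
  have hm : (z (Sum.inl true) : ℚ) = M * α := by simpa using hz (Sum.inl true)
  have ha : (z (Sum.inl false) : ℚ) = M * (1 - (k + 1) * α) := by simpa using hz (Sum.inl false)
  have hzy : ∀ j τ, (z (Sum.inr (j, τ)) : ℚ) = M * y j τ := fun j τ => hz (Sum.inr (j, τ))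
  have hM' : (0 : ℚ) < M := by exact_mod_cast hM
  have hN : z (Sum.inl false) + (k + 1) * z (Sum.inl true) = M := by
    have : ((z (Sum.inl false) + (k + 1) * z (Sum.inl true) : ℕ) : ℚ) = M := by
      push_cast
      rw [hm, ha]
      ring
    exact_mod_cast this
  refine ⟨z (Sum.inl false), z (Sum.inl true), ?_, ?_, fun j => ?_, ?_⟩
  · have : (0 : ℚ) < z (Sum.inl false) := by
      rw [ha]
      exact mul_pos hM' (by linarith)
    exact_mod_cast this
  · have : (z (Sum.inl false) : ℚ) ≤ z (Sum.inl true) := by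
      rw [ha, hm]
      exact mul_le_mul_of_nonneg_left (by linarith) hM'.le
    exact_mod_cast this
  · rw [hN]
    refine ⟨fun τ => z (Sum.inr (j, τ)), fun τ hτ => ?_, fun i => ?_, ?_⟩
    · have := hzy j τ
      rw [hy1 j τ hτ, mul_zero] at this
      exact_mod_cast this
    · have e1 : ((∑ τ, z (Sum.inr (j, τ)) * cnt τ i : ℕ) : ℚ) = M * ∑ τ, y j τ * cnt τ i := by
        push_cast
        rw [Finset.mul_sum]
        exact Finset.sum_congr rfl (fun τ _ => by rw [hzy, mul_assoc])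
      have e2 : ((szN (z (Sum.inl false)) (z (Sum.inl true)) j i : ℕ) : ℚ)
          = M * if i = j then 1 - (k + 1) * α else α := by
        unfold szN
        split_ifs
        · exact ha
        · exact hm
      have e3 := mul_le_mul_of_nonneg_left (hy2 j i) hM'.le
      rw [← e1, ← e2] at e3
      exact_mod_cast e3
    · have e1 : x' * M ≤ h * ∑ τ, (z (Sum.inr (j, τ)) : ℚ) := by
        simp_rw [hzy]
        rw [← Finset.mul_sum]
        nlinarith [mul_le_mul_of_nonneg_left (hy3 j) hM'.le]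
      have e2 : (x' : ℝ) * M ≤ h * ∑ τ, (z (Sum.inr (j, τ)) : ℝ) := by exact_mod_cast e1
      have e3 : (0 : ℝ) ≤ M := Nat.cast_nonneg M
      nlinarith
  · rw [hN]
    have hm' : (z (Sum.inl true) : ℝ) = M * α := by exact_mod_cast hm
    have hM'' : (M : ℝ) ≠ 0 := by exact_mod_cast hM.ne'
    have hα' : (α : ℝ) ≠ 0 := by exact_mod_cast hα.ne'
    rw [hm']
    field_simp

/-- The complete graph on `2h` vertices has a perfect tiling. -/
lemma rel_base {h : ℕ} (H : SimpleGraph (Fin (h + 1))) {x : ℝ} (hx : x ≤ 1) :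
    Rel H (2 * h) x (1 / (2 * h + 2)) := by
  classical
  have hall : ∀ j : Fin (2 * h + 2), IntSys H x (1 + (2 * h + 1) * 1) (szN 1 1 j) := by
    intro j
    let τ : Fin 2 → Fin (h + 1) → Fin (2 * h + 2) := fun b a => ⟨2 * a + b, by omega⟩
    refine ⟨fun t => (univ.filter (fun b => τ b = t)).card, fun t ht => ?_, fun i => ?_, ?_⟩
    · rw [Finset.card_eq_zero, Finset.filter_eq_empty_iff]
      rintro b _ rfl
      refine ht ⟨fun a a' haa => ?_, fun a a' haa he => haa.ne ?_⟩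
      · simp only [τ, Fin.mk_le_mk]
        have : (a : ℕ) ≤ a' := haa
        omega
      · simp only [τ, Fin.mk.injEq] at he
        exact Fin.ext (by omega)
    · rw [sum_card_filter_mul univ τ (fun t => cnt t i)]
      unfold cnt
      rw [← Finset.card_sigma]
      have : szN 1 1 j i = 1 := by simp [szN]
      rw [this, Finset.card_le_one]
      rintro ⟨b, a⟩ hq ⟨b', a'⟩ hq'
      simp only [Finset.mem_sigma, Finset.mem_univ, Finset.mem_filter, true_and, τ] at hq hq'
      have h1 := congrArg Fin.val (hq.trans hq'.symm)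
      simp only at h1
      have hb : b = b' := Fin.ext (by omega)
      have ha : a = a' := Fin.ext (by omega)
      rw [hb, ha]
    · have h2 := sum_card_filter_mul univ τ (fun _ => 1)
      simp only [mul_one, Finset.sum_const, smul_eq_mul, Finset.card_univ,
        Fintype.card_fin] at h2
      rw [← Nat.cast_sum, h2]
      push_cast
      have : (0 : ℝ) ≤ h := Nat.cast_nonneg h
      nlinarith
  have := rel_of_int (k := 2 * h) Nat.one_pos le_rfl hall
  convert this using 1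
  push_cast
  ring

lemma exists_top_all {h : ℕ} (H : SimpleGraph (Fin h)) (K : ℕ) :
    ∃ g : ℝ → ℝ, PW g ∧ ∀ x, ((∃ k, Rel H k x (g x)) ∨ g x = 0) ∧
      ∀ k < K, ∀ α, Rel H k x α → α ≤ g x := by
  induction K with
  | zero => exact ⟨fun _ => 0, PW.const 0, fun x => ⟨Or.inr rfl, by simp⟩⟩
  | succ K ih =>
    obtain ⟨g, hg, hgx⟩ := ih
    obtain ⟨D, hD, hDF⟩ := rel_poly H K
    have hK : (0 : ℝ) < K + 2 := by positivity
    obtain ⟨g', hg', hgx'⟩ := exists_fibre_top hD (1 / (K + 2)) 1 (fun x α hα => by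
        have h1 := ((hDF ℝ x α).2 hα).2.1
        have h2 := ((hDF ℝ x α).2 hα).1
        have : (0 : ℝ) ≤ K := Nat.cast_nonneg K
        have h3 : 0 < α := by
          by_contra hle
          nlinarith [mul_nonneg hK.le (neg_nonneg.2 (not_lt.1 hle))]
        nlinarith) (fun x α hα => by
        have h1 := (hDF ℝ x α).2 hα
        refine (hDF ℝ x _).1 (rel_down h1 (by field_simp; exact le_rfl) ?_)
        rw [div_le_iff₀ hK]
        linarith [h1.1])
    refine ⟨fun x => max (g x) (g' x), hg.max hg', fun x => ⟨?_, fun k hk α hα => ?_⟩⟩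
    · rcases le_total (g x) (g' x) with hle | hle
      · simp only [max_eq_right hle]
        rcases (hgx' x).1 with h1 | h1
        · exact Or.inl ⟨K, (hDF ℝ x _).2 h1⟩
        · exact Or.inr h1
      · simp only [max_eq_left hle]
        exact (hgx x).1
    · rcases Nat.lt_succ_iff_lt_or_eq.1 hk with hk | rfl
      · exact ((hgx x).2 k hk α hα).trans (le_max_left _ _)
      · exact ((hgx' x).2 α ((hDF ℝ x α).1 hα)).trans (le_max_right _ _)

lemma chiStar_eq {h : ℕ} (H : SimpleGraph (Fin h)) {x β : ℝ} (h1 : ∃ k, Rel H k x β)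
    (h2 : ∀ k α, Rel H k x α → α ≤ β) : chiStar x H = 1 / β := by
  obtain ⟨k, hk⟩ := h1
  have hk2 : (0 : ℝ) < k + 2 := by positivity
  have hβ : 0 < β := by
    by_contra hle
    nlinarith [mul_nonneg hk2.le (neg_nonneg.2 (not_lt.1 hle)), hk.1]
  unfold chiStar
  simp_rw [bottle_values]
  have hmem : ∀ α : ℚ, 1 ≤ (k + 2) * α → (α : ℝ) ≤ β → (k + 1) * α < 1 →
      1 / (α : ℝ) ∈ {c : ℝ | ∃ k a m : ℕ, 0 < a ∧ a ≤ m ∧
        (∀ j : Fin (k + 2), IntSys H x (a + (k + 1) * m) (szN a m j)) ∧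
        ((a + (k + 1) * m : ℕ) : ℝ) / m = c} := by
    intro α hα1 hα2 hα3
    exact ⟨k, int_of_rel (rel_down hk (by exact_mod_cast hα1) hα2) hα3⟩
  have hk2q : (0 : ℚ) < k + 2 := by positivity
  have hbase := hmem (1 / (k + 2)) (by field_simp; exact le_rfl) (by
    push_cast
    rw [div_le_iff₀ hk2]
    linarith [hk.1]) (by
    rw [← mul_div_assoc, div_lt_one hk2q]
    linarith)
  refine csInf_eq_of_forall_ge_of_forall_gt_exists_lt ⟨_, hbase⟩ ?_ ?_
  · rintro c ⟨k', a, m, ha, ham, hall, rfl⟩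
    have h3 := h2 k' _ (rel_of_int ha ham hall)
    have hm : (0 : ℝ) < m := by exact_mod_cast ha.trans_le ham
    have hN : (0 : ℝ) < ((a + (k' + 1) * m : ℕ) : ℝ) := by
      have : 0 < a + (k' + 1) * m := by omega
      exact_mod_cast this
    rw [div_le_iff₀ hN] at h3
    rw [div_le_div_iff₀ hβ hm]
    linarith
  · intro w hw
    have hw0 : 0 < w := (one_div_pos.2 hβ).trans hw
    rcases hk.1.eq_or_lt with heq | hlt
    · refine ⟨_, hbase, ?_⟩
      have : β = 1 / (k + 2) := by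
        field_simp
        linarith
      rw [this] at hw
      push_cast
      exact hw
    · have h3 : max (1 / w) (1 / (k + 2)) < β := by
        refine max_lt ?_ ?_
        · rwa [one_div_lt hw0 hβ]
        · rw [div_lt_iff₀ hk2]
          linarith
      obtain ⟨α, hα1, hα2⟩ := exists_rat_btwn h3
      have hα3 : 1 / w < α := (le_max_left _ _).trans_lt hα1
      have hα4 : 1 / ((k : ℝ) + 2) < α := (le_max_right _ _).trans_lt hα1
      have hα0 : (0 : ℝ) < α := (one_div_pos.2 hw0).trans hα3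
      refine ⟨_, hmem α ?_ hα2.le ?_, ?_⟩
      · rw [div_lt_iff₀ hk2] at hα4
        have : (1 : ℝ) ≤ (k + 2) * α := by linarith
        exact_mod_cast this
      · have hk1 : (0 : ℝ) < k + 1 := by positivity
        have : ((k : ℝ) + 1) * α < 1 := by nlinarith [hk.2.1]
        exact_mod_cast this
      · rwa [one_div_lt hα0 hw0]

/-- The threshold function agrees on `(0,1)` with a piecewise affine function, which is the top
of a closed set. -/
lemma exists_pw {h : ℕ} (H : SimpleGraph (Fin (h + 1))) :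
    ∃ g : ℝ → ℝ, PW g ∧ ∀ x ≤ 1, chiStar x H = 1 / g x ∧ (∃ k, Rel H k x (g x)) ∧
      ∀ k α, Rel H k x α → α ≤ g x := by
  obtain ⟨g, hg, hgx⟩ := exists_top_all H (2 * h + 1)
  refine ⟨g, hg, fun x hx => ?_⟩
  have h0 := (hgx x).2 (2 * h) (by omega) _ (rel_base H hx)
  have hh : (0 : ℝ) < 2 * h + 2 := by positivity
  have h1 : ∃ k, Rel H k x (g x) := by
    rcases (hgx x).1 with h1 | h1
    · exact h1
    · rw [h1] at h0
      exact absurd h0 (not_le.2 (one_div_pos.2 hh))
  have h2 : ∀ k α, Rel H k x α → α ≤ g x := by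
    intro k α hα
    rcases lt_or_ge k (2 * h + 1) with hk | hk
    · exact (hgx x).2 k hk α hα
    · refine le_trans ?_ h0
      have hk' : (2 * h + 1 : ℝ) ≤ k := by exact_mod_cast hk
      have hk2 : (0 : ℝ) < k + 2 := by positivity
      have hα0 : 0 < α := by
        by_contra hle
        nlinarith [mul_nonneg hk2.le (neg_nonneg.2 (not_lt.1 hle)), hα.1]
      rw [le_div_iff₀ hh]
      nlinarith [hα.2.1]
  exact ⟨chiStar_eq H h1 h2, h1, h2⟩

end Pool.Agent.MP_47c36b_co

end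

section

namespace Pool.Agent.MP_47c36b_co

open Filter Topology

lemma rel_left {h : ℕ} {H : SimpleGraph (Fin h)} {k : ℕ} {x x' α : ℝ} (hR : Rel H k x α)
    (hx : x' ≤ x) : Rel H k x' α := by
  refine ⟨hR.1, hR.2.1, fun j => ?_⟩
  obtain ⟨y, h0, h1, h2, h3⟩ := hR.2.2 j
  exact ⟨y, h0, h1, h2, hx.trans h3⟩

lemma rel_closed {h : ℕ} (H : SimpleGraph (Fin h)) (k : ℕ) (a b : ℝ) :
    IsClosed {x : ℝ | Rel H k x (a * x + b)} := by
  obtain ⟨D, _, hDF⟩ := rel_poly H k
  simp_rw [hDF, Set.ofPred_forall]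
  refine isClosed_iInter (fun e => isClosed_iInter (fun _ => ?_))
  simp_rw [evl_apply]
  exact isClosed_le continuous_const (by fun_prop)

theorem piecewise_succ {h : ℕ} (H : SimpleGraph (Fin (h + 1))) :
    ∃ J : Set (Set ℝ), J.Finite ∧ ⋃₀ J = Set.Ioo 0 1 ∧
      ∀ I ∈ J, I.OrdConnected ∧ I.Nontrivial ∧
        ∃ a b : ℝ, ∀ x ∈ I, 1 - 1 / chiStar x H = a * x + b := by
  obtain ⟨g, ⟨J, hJ, hcov, hI⟩, hg⟩ := exists_pw H
  let L : Set ℝ → Set ℝ := fun I => {p ∈ Set.Ioo (0 : ℝ) 1 | ∃ᶠ x in 𝓝[<] p, x ∈ I}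
  have hin : ∀ I ∈ J, ∀ x₁ ∈ I, ∀ x₂ ∈ I, ∀ z, x₁ < z → z < x₂ → ∃ᶠ x in 𝓝[<] z, x ∈ I := by
    intro I hIJ x₁ h₁ x₂ h₂ z hz1 hz2
    refine Eventually.frequently (mem_nhdsWithin_of_mem_nhds ?_)
    exact mem_of_superset (Icc_mem_nhds hz1 hz2) ((hI I hIJ).1.out h₁ h₂)
  have hpick : ∀ (I : Set ℝ) (p z : ℝ), (∃ᶠ x in 𝓝[<] p, x ∈ I) → z < p →
      ∃ x ∈ I, z < x ∧ x < p := by
    intro I p z hp hz
    obtain ⟨x, hx1, hx2⟩ := (hp.and_eventually (Ioo_mem_nhdsLT hz)).exists
    exact ⟨x, hx1, hx2⟩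
  refine ⟨L '' J ∩ {I | I.Nonempty}, (hJ.image _).inter_of_left _, ?_, ?_⟩
  · ext p
    constructor
    · rintro ⟨_, ⟨⟨I, _, rfl⟩, _⟩, hp⟩
      exact hp.1
    · intro hp
      have h1 : ∃ᶠ x in 𝓝[<] p, ∃ I ∈ J, x ∈ I := (Eventually.of_forall hcov).frequently
      obtain ⟨I, hIJ, h2⟩ := (hJ.frequently_exists).1 h1
      exact ⟨L I, ⟨⟨I, hIJ, rfl⟩, ⟨p, hp, h2⟩⟩, hp, h2⟩
  · rintro _ ⟨⟨I, hIJ, rfl⟩, p, hp⟩
    refine ⟨⟨fun p₁ h₁ p₂ h₂ z hz => ?_⟩, ?_, ?_⟩
    · refine ⟨Set.ordConnected_Ioo.out h₁.1 h₂.1 hz, ?_⟩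
      rcases hz.2.eq_or_lt with rfl | hz2
      · exact h₂.2
      obtain ⟨x₁, hx₁, _, hx₁'⟩ := hpick I p₁ (p₁ - 1) h₁.2 (by linarith)
      obtain ⟨x₂, hx₂, hx₂', _⟩ := hpick I p₂ z h₂.2 hz2
      exact hin I hIJ x₁ hx₁ x₂ hx₂ z (hx₁'.trans_le hz.1) hx₂'
    · obtain ⟨x₁, hx₁, h0, hx₁'⟩ := hpick I p 0 hp.2 hp.1.1
      obtain ⟨x₂, hx₂, h1, hx₂'⟩ := hpick I p x₁ hp.2 hx₁'
      refine ⟨(x₁ + x₂) / 2, ⟨⟨by linarith, by linarith [hp.1.2]⟩,
        hin I hIJ x₁ hx₁ x₂ hx₂ _ (by linarith) (by linarith)⟩, p, hp, ?_⟩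
      intro he
      linarith
    · obtain ⟨a, b, hab⟩ := (hI I hIJ).2
      refine ⟨-a, 1 - b, fun q hq => ?_⟩
      have hq1 : q ≤ 1 := hq.1.2.le
      have hfr : ∃ᶠ x in 𝓝[<] q, x ∈ I ∧ x < q := hq.2.and_eventually self_mem_nhdsWithin
      have h1 : g q ≤ a * q + b := by
        have hc : IsClosed {x : ℝ | g q ≤ a * x + b} := isClosed_le continuous_const (by fun_prop)
        suffices hq' : q ∈ {x : ℝ | g q ≤ a * x + b} from hq'
        refine hc.mem_of_frequently_of_tendsto (f := fun x => x) (hfr.mono ?_)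
          (tendsto_nhdsWithin_of_tendsto_nhds tendsto_id)
        rintro x ⟨hx, hxq⟩
        obtain ⟨k, hk⟩ := (hg q hq1).2.1
        have := (hg x (hxq.le.trans hq1)).2.2 k _ (rel_left hk hxq.le)
        rwa [hab x hx] at this
      have h2 : a * q + b ≤ g q := by
        have hc : IsClosed (⋃ k ∈ Set.Iic (2 * h + 1), {x : ℝ | Rel H k x (a * x + b)}) :=
          (Set.finite_Iic _).isClosed_biUnion (fun k _ => rel_closed H k a b)
        have hmem := hc.mem_of_frequently_of_tendsto (f := fun x => x) (hfr.mono (by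
          rintro x ⟨hx, hxq⟩
          have hx1 := hxq.le.trans hq1
          obtain ⟨k, hk⟩ := (hg x hx1).2.1
          have h3 := (hg x hx1).2.2 _ _ (rel_base H hx1)
          have hh : (0 : ℝ) < 2 * h + 2 := by positivity
          rw [div_le_iff₀ hh] at h3
          have h4 := hk.2.1
          have h5 : 0 < g x := by
            by_contra hle
            nlinarith [mul_nonneg hh.le (neg_nonneg.2 (not_lt.1 hle))]
          have h6 : (k : ℝ) ≤ 2 * h + 1 := by
            have : ((k : ℝ) + 1) * g x ≤ (2 * h + 2) * g x := by linarith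
            linarith [le_of_mul_le_mul_right this h5]
          have h7 : k ≤ 2 * h + 1 := by exact_mod_cast h6
          rw [hab x hx] at hk
          exact Set.mem_biUnion (Set.mem_Iic.2 h7) hk))
          (tendsto_nhdsWithin_of_tendsto_nhds tendsto_id)
        obtain ⟨k, _, hk⟩ := Set.mem_iUnion₂.1 hmem
        exact (hg q hq1).2.2 k _ hk
      rw [(hg q hq1).1, one_div_one_div, le_antisymm h1 h2]
      ring

theorem piecewise {h : ℕ} (H : SimpleGraph (Fin h)) :
    ∃ J : Set (Set ℝ), J.Finite ∧ ⋃₀ J = Set.Ioo 0 1 ∧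
      ∀ I ∈ J, I.OrdConnected ∧ I.Nontrivial ∧
        ∃ a b : ℝ, ∀ x ∈ I, 1 - 1 / chiStar x H = a * x + b := by
  cases h with
  | succ h => exact piecewise_succ H
  | zero =>
    refine ⟨{Set.Ioo 0 1}, Set.finite_singleton _, by simp, ?_⟩
    rintro _ rfl
    refine ⟨Set.ordConnected_Ioo, ⟨1 / 3, by norm_num, 2 / 3, by norm_num, by norm_num⟩,
      0, 1, fun x hx => ?_⟩
    have : chiStar x H = 0 := by
      unfold chiStar
      simp_rw [bottle_values]
      convert Real.sInf_empty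
      rw [Set.eq_empty_iff_forall_notMem]
      rintro c ⟨k, a, m, ha, _, hall, _⟩
      obtain ⟨y, _, _, h3⟩ := hall 0
      have hN : (0 : ℝ) < ((a + (k + 1) * m : ℕ) : ℝ) := by
        have : 0 < a + (k + 1) * m := by omega
        exact_mod_cast this
      have := mul_pos hx.1 hN
      simp only [Nat.cast_zero, zero_mul] at h3
      linarith
    rw [this]
    simp

end Pool.Agent.MP_47c36b_co

end
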